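import Pool.Agent.LeoG.AlgStmts
import Pool.Agent.Helper61_LeoK.Quad
import Pool.Agent.Helper79_LeoK.TwiB

/-!
# Squad LEOG, modules STG and THN
-/

set_option autoImplicit false

open NumberField IsDedekindDomain WithZero Module
open Pool.Agent.Helper85_Leo Pool.Agent.Leo3 Pool.Agent.LeoK Pool.Agent.LeoK.H61

namespace Pool.Agent.LeoG.H61

theorem thn : ThnStmt := by
  intro k _ _ m h x hx
  obtain ⟨φ⟩ : Nonempty (k →+* Om) :=
    ⟨(IsAlgClosed.lift (R := ℚ) (S := k) (M := Om)).toRingHom⟩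
  refine h φ (φ x) (fun ρ hρ => hρ x) ?_
  rw [← map_pow, hx, map_neg]

/-- Ideals with equal cubes are equal. -/
theorem ideal_cube_inj {R : Type} [CommRing R] [IsDedekindDomain R] {I J : Ideal R}
    (h : I ^ 3 = J ^ 3) : I = J := by
  exact pow_left_injective three_ne_zero h

theorem conjI_mul {F : Type} [Field F] (c : F ≃+* F) (I J : Ideal (𝓞 F)) :
    conjI c (I * J) = conjI c I * conjI c J := Ideal.map_mul _ _ _

theorem conjI_span {F : Type} [Field F] (c : F ≃+* F) (x : 𝓞 F) :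
    conjI c (Ideal.span {x}) = Ideal.span {RingOfIntegers.mapRingEquiv c x} := by
  unfold conjI
  rw [Ideal.map_span, Set.image_singleton]

theorem stg (hapl : AplStmt) (hapi : ApiStmt) (hqrg : QrgStmt) (hbsg : BsgStmt) (hcbg : CbgStmt)
    (hirg : IrgStmt) : StgStmt := by
  intro k K _ _ _ _ _ m s hK hs hadm hW
  unfold WMinus at hW
  push Not at hW
  obtain ⟨z, hz0, ⟨c₀, hc₀⟩, hval, hloc, hnc⟩ := hW
  obtain ⟨c, hcs, h3, hw⟩ := hqrg k K m s hK hs hadm.nsq hadm.sqf hadm.two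
  have hs0 : s ≠ 0 := by
    intro h0
    apply hadm.nsq 0
    apply (algebraMap k K).injective
    rw [← hs, h0, map_pow, map_zero]
  have hc1 : c ≠ 1 := by
    rintro rfl
    have h1 : s = -s := hcs
    have h2 : (2 : K) * s = 0 := by linear_combination h1
    rcases mul_eq_zero.1 h2 with h | h
    · exact two_ne_zero h
    · exact hs0 h
  have hfin : FiniteDimensional k K := Module.finite_of_finrank_pos (by omega)
  have hnorm : ∀ x : K, algebraMap k K (Algebra.norm k x) = x * c x :=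
    fun x => H79.quad_norm hK c hc1 x
  obtain ⟨t, ht0, ht⟩ := hapl K z hz0 hloc 2
  have hval' : ValCube3 (z * t ^ 3) := H79.valCube3_mul hval (H79.valCube3_cube t)
  obtain ⟨n, y, I, hn0, hy, hy0, hy9, hI⟩ := hapi K (z * t ^ 3)
    (mul_ne_zero hz0 (pow_ne_zero 3 ht0)) hval' ht
  have hnK : (n : K) ≠ 0 := Nat.cast_ne_zero.2 hn0
  -- `y` is not a cube
  have hync : ∀ x : K, x ^ 3 ≠ algebraMap (𝓞 K) K y := by
    intro x hx
    apply hnc (x / (t * n))
    have hy' : algebraMap (𝓞 K) K y = z * t ^ 3 * (n : K) ^ 3 := hy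
    rw [div_pow, hx, hy']
    field_simp
  -- the norm
  obtain ⟨N, hN⟩ : ∃ N : k, N = c₀ * Algebra.norm k t * (n : k) ^ 2 := ⟨_, rfl⟩
  have hyN : algebraMap (𝓞 K) K y * c (algebraMap (𝓞 K) K y) = algebraMap k K N ^ 3 := by
    have hy' : algebraMap (𝓞 K) K y = z * t ^ 3 * (n : K) ^ 3 := hy
    have h1 : z * c z = algebraMap k K c₀ ^ 3 := by rw [← hnorm, hc₀, map_pow]
    have h2 : t * c t = algebraMap k K (Algebra.norm k t) := (hnorm t).symm
    rw [hy', hN]
    simp only [map_mul, map_pow, map_natCast]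
    calc z * t ^ 3 * (n : K) ^ 3 * (c z * c t ^ 3 * (n : K) ^ 3)
        = (z * c z) * (t * c t) ^ 3 * ((n : K) ^ 2) ^ 3 := by ring
      _ = _ := by rw [h1, h2]; ring
  obtain ⟨ν, hν⟩ : ∃ ν : 𝓞 k, algebraMap (𝓞 k) k ν = N := by
    have h1 : IsIntegral ℤ (algebraMap k K N) := by
      apply IsIntegral.of_pow (by norm_num : 0 < 3)
      rw [← hyN]
      apply IsIntegral.mul (RingOfIntegers.isIntegral_coe y)
      exact RingOfIntegers.isIntegral_coe (RingOfIntegers.mapRingEquiv (c : K ≃+* K) y)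
    rw [isIntegral_algebraMap_iff (algebraMap k K).injective] at h1
    exact ⟨⟨N, h1⟩, rfl⟩
  have hyK0 : algebraMap (𝓞 K) K y ≠ 0 := by
    intro h
    apply hy0
    exact RingOfIntegers.ext h
  have hν0 : ν ≠ 0 := by
    rintro rfl
    have h1 : algebraMap k K N = 0 := by rw [← hν, map_zero, map_zero]
    rw [h1, zero_pow (by norm_num)] at hyN
    rcases mul_eq_zero.1 hyN with h | h
    · exact hyK0 h
    · exact hyK0 ((map_eq_zero c).1 h)
  have hyν : algebraMap (𝓞 K) K y * c (algebraMap (𝓞 K) K y) =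
      algebraMap k K (algebraMap (𝓞 k) k ν) ^ 3 := by rw [hν]; exact hyN
  have hIν : I * conjI (c : K ≃+* K) I = Ideal.span {algebraMap (𝓞 k) (𝓞 K) ν} := by
    apply ideal_cube_inj
    have h1 : conjI (c : K ≃+* K) I ^ 3 = conjI (c : K ≃+* K) (I ^ 3) := by
      rw [pow_succ, pow_succ, pow_one, pow_succ, pow_succ, pow_one, conjI_mul, conjI_mul]
    rw [mul_pow, h1, ← hI, conjI_span, Ideal.span_singleton_mul_span_singleton,
      Ideal.span_singleton_pow]
    congr 2
    apply RingOfIntegers.ext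
    exact hyν
  have hyI : y ∈ I := by
    have h1 : y ∈ I ^ 3 := by rw [← hI]; exact Ideal.mem_span_singleton_self y
    exact Ideal.pow_le_self (by norm_num) h1
  obtain ⟨u, v, hu, hv, hu', hv', huv⟩ := hbsg k K s c hK hs0 hcs h3 hw I ν hν0
    ⟨y, hyI, Dvd.dvd.trans ⟨3, by norm_num⟩ hy9⟩ hIν
  have hdvd : ∀ x ∈ I ^ 3, y ∣ x := by
    intro x hx
    rw [← hI] at hx
    exact Ideal.mem_span_singleton.1 hx
  have e3 : I ^ 3 = I * I * I := by ring
  have hdvd3 : ∀ x₁ ∈ I, ∀ x₂ ∈ I, ∀ x₃ ∈ I, y ∣ x₁ * x₂ * x₃ := by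
    intro x₁ h₁ x₂ h₂ x₃ h₃
    apply hdvd
    rw [e3]
    exact Ideal.mul_mem_mul (Ideal.mul_mem_mul h₁ h₂) h₃
  obtain ⟨g, hg, hgv⟩ := hcbg k K m s c hK hs0 hs hcs h3 u v y ν hν0 hy0 hu' hv' huv hyν hy9
    (by
      have := hdvd3 u hu u hu u hu
      rwa [show u * u * u = u ^ 3 by ring] at this)
    (by
      have := hdvd3 u hu u hu v hv
      rwa [show u * u * v = u ^ 2 * v by ring] at this)
    (by
      have := hdvd3 u hu v hv v hv
      rwa [show u * v * v = u * v ^ 2 by ring] at this)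
    (by
      have := hdvd3 v hv v hv v hv
      rwa [show v * v * v = v ^ 3 by ring] at this)
  refine ⟨g, ?_, hg⟩
  have hirr := hirg k K s c hK hs0 hcs (algebraMap (𝓞 K) K u) (algebraMap (𝓞 K) K v)
    (algebraMap (𝓞 K) K y) (algebraMap (𝓞 k) k ν) (fun i => algebraMap (𝓞 k) k (g i))
    (by
      intro h
      exact hν0 (RingOfIntegers.ext h))
    hyK0 huv hyν hync hgv
  intro X Y hXY
  have h1 : gval (fun i => algebraMap (𝓞 k) k (g i)) (algebraMap (𝓞 k) k X)
      (algebraMap (𝓞 k) k Y) = 0 := by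
    have h2 := congrArg (algebraMap (𝓞 k) k) hXY
    unfold gval at h2 ⊢
    simpa only [map_add, map_mul, map_pow, map_zero] using h2
  obtain ⟨h3, h4⟩ := hirr _ _ h1
  exact ⟨RingOfIntegers.ext h3, RingOfIntegers.ext h4⟩

end Pool.Agent.LeoG.H61
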