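import Pool.Agent.Helper61_LeoG.BsgCore

/-!
# Squad LEOG, module BSG: ideals prime to 3 of principal norm
-/

set_option autoImplicit false

open NumberField IsDedekindDomain WithZero Module
open Pool.Agent.Helper85_Leo Pool.Agent.Leo3 Pool.Agent.LeoK Pool.Agent.LeoK.H61

namespace Pool.Agent.LeoG.H61

section ord

variable {k K : Type} [Field k] [NumberField k] [Field K] [NumberField K] [Algebra k K] {s : K}
  {c : K ≃ₐ[k] K}

theorem int_fixed (hK : finrank k K = 2) (hs0 : s ≠ 0) (hc : c s = -s) (x : 𝓞 K)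
    (h : c (algebraMap (𝓞 K) K x) = algebraMap (𝓞 K) K x) :
    ∃ y : 𝓞 k, algebraMap k K (algebraMap (𝓞 k) k y) = algebraMap (𝓞 K) K x := by
  obtain ⟨a, ha⟩ := fixed_mem hK hs0 hc h
  have h1 : IsIntegral ℤ a := by
    rw [← isIntegral_algebraMap_iff (algebraMap k K).injective, ← ha]
    exact RingOfIntegers.isIntegral_coe x
  exact ⟨⟨a, h1⟩, ha.symm⟩

theorem ordR_iff (x : 𝓞 K) : OrdR s c x ↔ ∃ y : 𝓞 k, algebraMap (𝓞 K) K x -
    c (algebraMap (𝓞 K) K x) = algebraMap k K (algebraMap (𝓞 k) k y) * s := Iff.rfl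

theorem ordR_mul (hK : finrank k K = 2) (hs0 : s ≠ 0) (hc : c s = -s) {x x' : 𝓞 K}
    (hx : OrdR s c x) (hx' : OrdR s c x') : OrdR s c (x * x') := by
  obtain ⟨y, hy⟩ := (ordR_iff x).1 hx
  obtain ⟨y', hy'⟩ := (ordR_iff x').1 hx'
  have hcc := conj_conj hK hs0 hc
  obtain ⟨z, hz⟩ := int_fixed hK hs0 hc (algebraMap (𝓞 k) (𝓞 K) y * x' +
    algebraMap (𝓞 k) (𝓞 K) y' * RingOfIntegers.mapRingEquiv (c : K ≃+* K) x) (by
      simp only [map_add, map_mul]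
      rw [coe_alg, coe_alg, coe_conj]
      show c (algebraMap k K (algebraMap (𝓞 k) k y)) * c (algebraMap (𝓞 K) K x') +
        c (algebraMap k K (algebraMap (𝓞 k) k y')) * c (c (algebraMap (𝓞 K) K x)) =
        algebraMap k K (algebraMap (𝓞 k) k y) * algebraMap (𝓞 K) K x' +
          algebraMap k K (algebraMap (𝓞 k) k y') * c (algebraMap (𝓞 K) K x)
      rw [c.commutes, c.commutes, hcc]
      linear_combination (-algebraMap k K (algebraMap (𝓞 k) k y)) * hy' +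
        algebraMap k K (algebraMap (𝓞 k) k y') * hy)
  refine (ordR_iff _).2 ⟨z, ?_⟩
  rw [hz]
  simp only [map_add, map_mul]
  rw [coe_alg, coe_alg, coe_conj]
  show algebraMap (𝓞 K) K x * algebraMap (𝓞 K) K x' - c (algebraMap (𝓞 K) K x) *
    c (algebraMap (𝓞 K) K x') = (algebraMap k K (algebraMap (𝓞 k) k y) * algebraMap (𝓞 K) K x' +
          algebraMap k K (algebraMap (𝓞 k) k y') * c (algebraMap (𝓞 K) K x)) * s
  linear_combination algebraMap (𝓞 K) K x' * hy + c (algebraMap (𝓞 K) K x) * hy'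

theorem ordR_add {x x' : 𝓞 K} (hx : OrdR s c x) (hx' : OrdR s c x') : OrdR s c (x + x') := by
  obtain ⟨y, hy⟩ := (ordR_iff x).1 hx
  obtain ⟨y', hy'⟩ := (ordR_iff x').1 hx'
  refine (ordR_iff _).2 ⟨y + y', ?_⟩
  simp only [map_add]
  linear_combination hy + hy'

theorem ordR_neg {x : 𝓞 K} (hx : OrdR s c x) : OrdR s c (-x) := by
  obtain ⟨y, hy⟩ := (ordR_iff x).1 hx
  refine (ordR_iff _).2 ⟨-y, ?_⟩
  simp only [map_neg]
  linear_combination -hy

theorem ordR_alg (y : 𝓞 k) : OrdR s c (algebraMap (𝓞 k) (𝓞 K) y) := by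
  refine (ordR_iff _).2 ⟨0, ?_⟩
  rw [coe_alg, c.commutes, map_zero, map_zero]
  ring

/-- The order. -/
def Ord (hK : finrank k K = 2) (hs0 : s ≠ 0) (hc : c s = -s) : Subring (𝓞 K) where
  carrier := {x | OrdR s c x}
  mul_mem' := fun h h' => ordR_mul hK hs0 hc h h'
  one_mem' := by
    have h := ordR_alg (s := s) (c := c) 1
    rw [map_one] at h
    exact h
  add_mem' := fun h h' => ordR_add h h'
  zero_mem' := by
    have h := ordR_alg (s := s) (c := c) 0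
    rw [map_zero] at h
    exact h
  neg_mem' := fun h => ordR_neg h

theorem mem_Ord (hK : finrank k K = 2) (hs0 : s ≠ 0) (hc : c s = -s) (x : 𝓞 K) :
    x ∈ Ord hK hs0 hc ↔ OrdR s c x := Iff.rfl

theorem ordR_conj (hK : finrank k K = 2) (hs0 : s ≠ 0) (hc : c s = -s) {x : 𝓞 K}
    (hx : OrdR s c x) : OrdR s c (RingOfIntegers.mapRingEquiv (c : K ≃+* K) x) := by
  obtain ⟨y, hy⟩ := (ordR_iff x).1 hx
  refine (ordR_iff _).2 ⟨-y, ?_⟩
  rw [coe_conj]
  show c (algebraMap (𝓞 K) K x) - c (c (algebraMap (𝓞 K) K x)) = _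
  rw [conj_conj hK hs0 hc, map_neg, map_neg]
  linear_combination (-1 : K) * hy

end ord

theorem bsg : BsgStmt := by
  intro k K _ _ _ _ _ s c hK hs0 hc h3 hw I ν hν hI3 hI
  obtain ⟨w, hw⟩ := hw
  obtain ⟨a, haI, b, hab⟩ := hI3
  have hcc : ∀ z : K, c (c z) = z := conj_conj hK hs0 hc
  obtain ⟨cI, hcI⟩ : ∃ f : 𝓞 K ≃+* 𝓞 K, ∀ x : 𝓞 K, algebraMap (𝓞 K) K (f x) =
      c (algebraMap (𝓞 K) K x) := ⟨RingOfIntegers.mapRingEquiv (c : K ≃+* K), fun x => rfl⟩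
  have hinjK : Function.Injective (algebraMap (𝓞 K) K) := fun x y h => RingOfIntegers.ext h
  have hcIcI : ∀ x : 𝓞 K, cI (cI x) = x := by
    intro x
    apply hinjK
    rw [hcI, hcI, hcc]
  have hcIk : ∀ y : 𝓞 k, cI (algebraMap (𝓞 k) (𝓞 K) y) = algebraMap (𝓞 k) (𝓞 K) y := by
    intro y
    apply hinjK
    rw [hcI, coe_alg, c.commutes]
  have hinjk : Function.Injective (algebraMap (𝓞 k) (𝓞 K)) := by
    intro x y hxy
    have h1 : algebraMap k K (algebraMap (𝓞 k) k x) = algebraMap k K (algebraMap (𝓞 k) k y) := by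
      rw [← coe_alg, ← coe_alg, hxy]
    exact RingOfIntegers.ext ((algebraMap k K).injective h1)
  have hfix : ∀ x : 𝓞 K, cI x = x → ∃ y : 𝓞 k, algebraMap (𝓞 k) (𝓞 K) y = x := by
    intro x hx
    obtain ⟨y, hy⟩ := int_fixed hK hs0 hc x (by rw [← hcI, hx])
    exact ⟨y, hinjK (by rw [coe_alg, hy])⟩
  have hmemJ : ∀ x : 𝓞 K, x ∈ conjI (c : K ≃+* K) I ↔ cI x ∈ I := by
    intro x
    rw [mem_conjI]
    constructor
    · rintro ⟨y, hy, h⟩
      have : cI x = y := by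
        apply hinjK
        rw [hcI, h]
        exact hcc _
      rwa [this]
    · intro h
      exact ⟨cI x, h, by rw [hcI]; exact (hcc _).symm⟩
  -- `ν` and 3 are coprime in `𝓞 k`; an element of `𝓞 k` in `I`, congruent to 1 modulo 3
  obtain ⟨n, hn⟩ := hfix (a * cI a) (by rw [map_mul, hcIcI, mul_comm])
  obtain ⟨n', hn'⟩ := hfix (b + cI b + 3 * b * cI b) (by
    simp only [map_add, map_mul, hcIcI, map_ofNat]
    ring)
  have hn3 : n = 1 + 3 * n' := by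
    apply hinjk
    rw [hn, map_add, map_mul, hn', map_one, map_ofNat]
    have ha : a = 1 + 3 * b := by rw [← hab]; ring
    rw [ha]
    simp only [map_add, map_mul, map_one, map_ofNat]
    ring
  have hnI : algebraMap (𝓞 k) (𝓞 K) n ∈ I := by
    rw [hn]
    exact I.mul_mem_right _ haI
  obtain ⟨t, ht⟩ : ∃ t : 𝓞 k, n = ν * t := by
    have h1 : a * cI a ∈ I * conjI (c : K ≃+* K) I := by
      apply Ideal.mul_mem_mul haI
      rw [hmemJ, hcIcI]
      exact haI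
    rw [hI] at h1
    obtain ⟨z, hz⟩ := Ideal.mem_span_singleton.1 h1
    obtain ⟨t, ht⟩ := hfix z (by
      have h2 := congrArg cI hz
      rw [map_mul, map_mul, hcIcI, hcIk, mul_comm (cI a) a, hz] at h2
      exact (mul_left_cancel₀ ((map_ne_zero_iff _ hinjk).2 hν) h2).symm)
    exact ⟨t, hinjk (by rw [hn, hz, map_mul, ht])⟩
  -- the order
  obtain ⟨S, hS⟩ : ∃ S : Subring (𝓞 K), ∀ x, x ∈ S ↔ OrdR s c x :=
    ⟨Ord hK hs0 hc, mem_Ord hK hs0 hc⟩
  have hSk : ∀ y : 𝓞 k, algebraMap (𝓞 k) (𝓞 K) y ∈ S := fun y => (hS _).2 (ordR_alg y)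
  have hS3 : ∀ x : 𝓞 K, 3 * x ∈ S := by
    intro x
    obtain ⟨y, hy⟩ := h3 x
    refine (hS _).2 ((ordR_iff _).2 ⟨y, ?_⟩)
    rw [map_mul, map_ofNat, map_mul, map_ofNat, ← mul_sub]
    exact hy
  have hScI : ∀ x : 𝓞 K, x ∈ S → cI x ∈ S := by
    intro x hx
    obtain ⟨y, hy⟩ := (ordR_iff _).1 ((hS _).1 hx)
    refine (hS _).2 ((ordR_iff _).2 ⟨-y, ?_⟩)
    rw [hcI, hcc, map_neg, map_neg]
    linear_combination (-1 : K) * hy
  obtain ⟨j, hj⟩ : ∃ j : 𝓞 k →+* S, ∀ y, ((j y : S) : 𝓞 K) = algebraMap (𝓞 k) (𝓞 K) y :=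
    ⟨(algebraMap (𝓞 k) (𝓞 K)).codRestrict S hSk, fun y => rfl⟩
  obtain ⟨cS, hcS⟩ : ∃ cS : S →+* S, ∀ x, ((cS x : S) : 𝓞 K) = cI x :=
    ⟨((cI : 𝓞 K →+* 𝓞 K).comp S.subtype).codRestrict S (fun x => hScI x x.2), fun x => rfl⟩
  have hsub : Function.Injective (Subtype.val : S → 𝓞 K) := Subtype.val_injective
  obtain ⟨Λ, hΛ⟩ : ∃ Λ : Ideal S, ∀ x : S, x ∈ Λ ↔ (x : 𝓞 K) ∈ I :=
    ⟨I.comap S.subtype, fun x => Iff.rfl⟩
  obtain ⟨J, hJ⟩ : ∃ J : Ideal S, ∀ x : S, x ∈ J ↔ cI (x : 𝓞 K) ∈ I := by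
    refine ⟨Λ.comap cS, fun x => ?_⟩
    rw [Ideal.mem_comap, hΛ, hcS]
  have hmain : Λ * J = Ideal.span {j ν} := by
    apply le_antisymm
    · rw [Ideal.mul_le]
      intro x hx y hy
      have h1 : (x : 𝓞 K) * (y : 𝓞 K) ∈ I * conjI (c : K ≃+* K) I :=
        Ideal.mul_mem_mul ((hΛ x).1 hx) ((hmemJ _).2 ((hJ y).1 hy))
      rw [hI] at h1
      obtain ⟨z, hz⟩ := Ideal.mem_span_singleton.1 h1
      have hzS : z ∈ S := by
        have e1 : z = algebraMap (𝓞 k) (𝓞 K) t * ((x : 𝓞 K) * (y : 𝓞 K)) -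
            algebraMap (𝓞 k) (𝓞 K) n' * (3 * z) := by
          have e2 : algebraMap (𝓞 k) (𝓞 K) ν * algebraMap (𝓞 k) (𝓞 K) t =
              1 + 3 * algebraMap (𝓞 k) (𝓞 K) n' := by
            rw [← map_mul, ← ht, hn3, map_add, map_mul, map_one, map_ofNat]
          rw [hz]
          linear_combination -z * e2
        rw [e1]
        exact S.sub_mem (S.mul_mem (hSk t) (S.mul_mem x.2 y.2)) (S.mul_mem (hSk n') (hS3 z))
      rw [Ideal.mem_span_singleton]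
      refine ⟨⟨z, hzS⟩, ?_⟩
      apply hsub
      show (x : 𝓞 K) * (y : 𝓞 K) = (j ν : 𝓞 K) * z
      rw [hj, hz]
    · rw [Ideal.span_singleton_le_iff_mem]
      have h9 : ∀ e ∈ I * conjI (c : K ≃+* K) I, ∃ p ∈ Λ * J, (p : 𝓞 K) = 9 * e := by
        intro e he
        refine Submodule.mul_induction_on he ?_ ?_
        · intro x hx y hy
          refine ⟨⟨3 * x, hS3 x⟩ * ⟨3 * y, hS3 y⟩, Ideal.mul_mem_mul ?_ ?_, ?_⟩
          · rw [hΛ]
            exact I.mul_mem_left _ hx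
          · rw [hJ]
            show cI (3 * y) ∈ I
            rw [map_mul]
            exact I.mul_mem_left _ ((hmemJ y).1 hy)
          · show 3 * x * (3 * y) = 9 * (x * y)
            ring
        · rintro x y ⟨p, hp, hp'⟩ ⟨q, hq, hq'⟩
          refine ⟨p + q, Ideal.add_mem _ hp hq, ?_⟩
          show (p : 𝓞 K) + (q : 𝓞 K) = 9 * (x + y)
          rw [hp', hq']
          ring
      obtain ⟨p, hp, hp9⟩ := h9 (algebraMap (𝓞 k) (𝓞 K) ν) (by
        rw [hI]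
        exact Ideal.mem_span_singleton_self _)
      have hnn : j n * j n ∈ Λ * J := by
        apply Ideal.mul_mem_mul
        · rw [hΛ, hj]
          exact hnI
        · rw [hJ, hj, hcIk]
          exact hnI
      have e3 : j ν = j ν * j n * (j n * j n) - j (n' + 3 * n' ^ 2 + 3 * n' ^ 3) * p := by
        apply hsub
        show (j ν : 𝓞 K) = (j ν : 𝓞 K) * (j n : 𝓞 K) * ((j n : 𝓞 K) * (j n : 𝓞 K)) -
          (j (n' + 3 * n' ^ 2 + 3 * n' ^ 3) : 𝓞 K) * (p : 𝓞 K)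
        rw [hj, hj, hj, hp9, hn3]
        simp only [map_add, map_mul, map_pow, map_one, map_ofNat]
        ring
      rw [e3]
      exact Ideal.sub_mem _ (Ideal.mul_mem_left _ _ hnn) (Ideal.mul_mem_left _ _ hp)
  obtain ⟨y₁, hy₁⟩ : ∃ y₁ : S, y₁ = ⟨w, (hS _).2 ((ordR_iff _).2 ⟨1, by
    rw [map_one, map_one, one_mul]; exact hw⟩)⟩ := ⟨_, rfl⟩
  obtain ⟨u, v, hu, hv, _, huv⟩ := bas_core_ord j ((algebraMap (𝓞 K) K).comp S.subtype)
    (fun x y h => hsub (hinjK h)) (fun x y h => by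
      apply hinjk
      rw [← hj, ← hj, h]) (c : K ≃+* K) hcc
    (fun y => by
      show c (algebraMap (𝓞 K) K (j y : 𝓞 K)) = algebraMap (𝓞 K) K (j y : 𝓞 K)
      rw [hj, coe_alg, c.commutes])
    (fun x => ⟨cS x, by
      show algebraMap (𝓞 K) K (cS x : 𝓞 K) = c (algebraMap (𝓞 K) K (x : 𝓞 K))
      rw [hcS, hcI]⟩) s hs0
    (fun x => by
      obtain ⟨y, hy⟩ := (ordR_iff _).1 ((hS _).1 x.2)
      refine ⟨y, ?_⟩
      show algebraMap (𝓞 K) K (x : 𝓞 K) - c (algebraMap (𝓞 K) K (x : 𝓞 K)) =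
        algebraMap (𝓞 K) K (j y : 𝓞 K) * s
      rw [hj, coe_alg]
      exact hy) y₁
    (by
      rw [hy₁]
      exact hw)
    (fun x => by
      obtain ⟨q, hq⟩ := (ordR_iff _).1 ((hS _).1 x.2)
      obtain ⟨p, hp⟩ := hfix ((x : 𝓞 K) - algebraMap (𝓞 k) (𝓞 K) q * w) (by
        apply hinjK
        rw [hcI, map_sub, map_sub, map_mul, map_mul, coe_alg, c.commutes]
        have hw' : algebraMap (𝓞 K) K w - c (algebraMap (𝓞 K) K w) = s := hw
        linear_combination (-1 : K) * hq + algebraMap k K (algebraMap (𝓞 k) k q) * hw')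
      refine ⟨p, q, ?_⟩
      apply hsub
      show (x : 𝓞 K) = (j p : 𝓞 K) + (j q : 𝓞 K) * (y₁ : 𝓞 K)
      rw [hj, hj, hp, hy₁]
      ring) Λ J
    (fun x => by
      rw [hJ]
      constructor
      · intro h
        refine ⟨cS x, ?_, ?_⟩
        · rw [hΛ, hcS]
          exact h
        · show algebraMap (𝓞 K) K (x : 𝓞 K) = c (algebraMap (𝓞 K) K (cS x : 𝓞 K))
          rw [hcS, hcI, hcc]
      · rintro ⟨y, hy, h⟩
        have h' : algebraMap (𝓞 K) K (x : 𝓞 K) = c (algebraMap (𝓞 K) K (y : 𝓞 K)) := h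
        have e : cI (x : 𝓞 K) = (y : 𝓞 K) := by
          apply hinjK
          rw [hcI, h', hcc]
        rw [e]
        exact (hΛ y).1 hy) ν hν hmain
  refine ⟨u, v, (hΛ u).1 hu, (hΛ v).1 hv, (hS _).1 u.2, (hS _).1 v.2, ?_⟩
  have e := huv
  rw [show ((algebraMap (𝓞 K) K).comp S.subtype) (j ν) = algebraMap (𝓞 K) K (j ν : 𝓞 K) from rfl,
    hj, coe_alg] at e
  exact e

end Pool.Agent.LeoG.H61
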