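import Pool.Agent.LeoG.AlgStmts

/-!
# Squad LEOG, module ING: everything that follows from the vanishing of the relative group
-/

set_option autoImplicit false

open NumberField IsDedekindDomain WithZero Module Polynomial
open Pool.Agent.Helper85_Leo Pool.Agent.Leo3 Pool.Agent.LeoK

namespace Pool.Agent.LeoG.H61

/-- no new square roots in extensions of odd degree -/
theorem nsq_up {k M : Type} [Field k] [Field M] [Algebra k M] (hodd : Odd (finrank k M)) (a : k)
    (ha : ∀ x : k, x ^ 2 ≠ a) (x : M) : x ^ 2 ≠ algebraMap k M a := by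
  intro hx
  have hfin : FiniteDimensional k M := Module.finite_of_finrank_pos hodd.pos
  have hint : IsIntegral k x := Algebra.IsIntegral.isIntegral x
  have hp : (X ^ 2 - C a : k[X]).Monic := monic_X_pow_sub_C a (by norm_num)
  have hroot : aeval x (X ^ 2 - C a : k[X]) = 0 := by
    simp [hx]
  have hdvd : minpoly k x ∣ X ^ 2 - C a := minpoly.dvd k x hroot
  have hle : (minpoly k x).natDegree ≤ 2 := by
    have h1 := natDegree_le_of_dvd hdvd hp.ne_zero
    rwa [natDegree_X_pow_sub_C] at h1
  have hd := minpoly.degree_dvd hint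
  have hne : (minpoly k x).natDegree ≠ 2 := by
    intro h
    rw [h] at hd
    exact (Nat.not_even_iff_odd.2 hodd) (even_iff_two_dvd.2 hd)
  have hpos := minpoly.natDegree_pos hint
  have h1 : (minpoly k x).natDegree = 1 := by omega
  obtain ⟨y, hy⟩ := (minpoly.natDegree_eq_one_iff).1 h1
  apply ha y
  apply (algebraMap k M).injective
  rw [map_pow, ← hx]
  congr 1

theorem ing (hlrg : LrgStmt) (htwg : TwgStmt) (hnmf : LeoK.NmfStmt) (hredp : RedpStmt)
    (hleo3 : Leo3Stmt) (hgup3 : Gup3Stmt) : IngStmt := by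
  intro k K _ _ _ _ _ m r hK hr hadm hW
  refine ⟨hW, hlrg k K (m : k) r hK hr hadm.nsq hadm.three hW, ?_, ?_⟩
  · intro M L _ _ _ _ _ _ _ _ _ _ _ j hM hL htame hleoM
    obtain ⟨h1, h2⟩ := htwg k K M L j (m : k) r hK hM hL htame hr hadm.nsq hadm.three hW
    have hodd : Odd (finrank k M) := by
      rw [hM]
      exact Odd.pow (by decide)
    refine hlrg M L (algebraMap k M (m : k)) (algebraMap K L r) hL ?_ ?_ h1 h2 hleoM
    · rw [← map_pow, hr, ← IsScalarTower.algebraMap_apply k K L, map_mul, map_ofNat, map_mul,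
        map_ofNat, ← IsScalarTower.algebraMap_apply k M L]
    · intro x hx
      have h3 := nsq_up hodd (3 * (m : k)) hadm.nsq x
      apply h3
      rw [hx, map_mul, map_ofNat]
  · intro hmu hw3
    have hmuK : NoMu K := hnmf k K m r hK hr hadm.nsq hmu hadm.three
    have hw3K : W3 K := hredp k K hK hmuK hw3 hW
    refine ⟨hmuK, hw3K, hleo3 K hmuK hw3K, ?_⟩
    intro E _ _ _ _ j hE hunr
    obtain ⟨h1, h2⟩ := hgup3 K E j hE hunr hmuK hw3K
    exact hleo3 E h1 h2

end Pool.Agent.LeoG.H61
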